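import Pool.Agent.X26.TY.Sing
import Pool.Agent.X26.MC.Tup

/-!
# Almost all elements of an arbitrary set are centres of the expected number of patterns
-/

set_option autoImplicit false

namespace Pool.Agent.X26.TY

open Finset Filter
open Pool.Agent.Y843.AC.HL (Tup gg nu Adm Tp Sing gg_pos gg_ge)
open Pool.Agent.X26.GP (TF)
open Pool.Agent.X26.MC (tupM)

/-- all the `n + ∑ g_i d_i`, `|g_i| ≤ K`, are in `S` -/
def Cen {m : ℕ} (K : ℕ) (S : Finset ℕ) (n : ℕ) (d : Fin m → ℕ) : Prop :=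
  ∀ g : Fin m → ℤ, (∀ i, |g i| ≤ K) → ∃ s ∈ S, (s : ℤ) = n + ∑ i, g i * (d i : ℤ)

/-- the box of the coefficient vectors -/
def bx (m K : ℕ) : Finset (Fin m → ℕ) := Fintype.piFinset (fun _ : Fin m => range (2 * K + 1))

theorem bx_card (m K : ℕ) : (bx m K).card = (2 * K + 1) ^ m := by
  unfold bx
  rw [Fintype.card_piFinset, prod_const, card_range, card_univ, Fintype.card_fin]

theorem cen_of {m K : ℕ} {S S' : Finset ℕ} (hS : S' ⊆ S) {n : ℕ} {d : Fin m → ℕ}
    (h : ∀ f ∈ bx m K, n + ∑ i, f i * d i ∈ S') :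
    n + ∑ i, K * d i ∈ S' ∧ Cen K S (n + ∑ i, K * d i) d := by
  refine ⟨?_, fun g hg => ?_⟩
  · refine h (fun _ => K) ?_
    unfold bx
    rw [Fintype.mem_piFinset]
    intro i
    rw [mem_range]
    omega
  · refine ⟨n + ∑ i, ((K : ℤ) + g i).toNat * d i, hS (h (fun i => ((K : ℤ) + g i).toNat) ?_), ?_⟩
    · unfold bx
      rw [Fintype.mem_piFinset]
      intro i
      have h1 := abs_le.1 (hg i)
      rw [mem_range]
      omega
    · push_cast
      rw [add_assoc, ← sum_add_distrib]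
      congr 1
      apply sum_congr rfl
      intro i _
      have h1 := abs_le.1 (hg i)
      rw [Int.toNat_of_nonneg (by omega)]
      ring

theorem big_Xg (r : ℕ) {θ A : ℝ} (hθ : 0 < θ) : ∃ x₀ : ℕ, ∀ x : ℕ, x₀ ≤ x → ∀ T : Finset ℤ, Tup r x T →
    ∀ X : ℕ, (x : ℝ) ^ θ ≤ X → A ≤ X * gg T x := by
  obtain ⟨c, hc, h⟩ := gg_ge r
  have h1 : (fun x : ℝ => Real.log x ^ (r : ℝ)) =o[atTop] fun x : ℝ => x ^ θ :=
    isLittleO_log_rpow_rpow_atTop (r : ℝ) hθ
  have h2 : ∀ᶠ x : ℝ in atTop, |A| / c * Real.log x ^ r ≤ x ^ θ := by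
    filter_upwards [h1.bound (c := c / (|A| + 1)) (by positivity), eventually_gt_atTop (1 : ℝ)] with x hx hx1
    have hl : 0 < Real.log x := Real.log_pos hx1
    rw [Real.rpow_natCast, Real.norm_eq_abs, Real.norm_eq_abs, abs_of_pos (by positivity),
      abs_of_pos (Real.rpow_pos_of_pos (by linarith) θ)] at hx
    have hxt : 0 ≤ x ^ θ := Real.rpow_nonneg (by linarith) θ
    calc |A| / c * Real.log x ^ r ≤ |A| / c * (c / (|A| + 1) * x ^ θ) :=
          mul_le_mul_of_nonneg_left hx (by positivity)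
      _ = |A| / (|A| + 1) * x ^ θ := by field_simp
      _ ≤ 1 * x ^ θ := by
          apply mul_le_mul_of_nonneg_right _ hxt
          rw [div_le_one (by positivity)]
          linarith
      _ = x ^ θ := one_mul _
  obtain ⟨a, ha⟩ := eventually_atTop.1 h2
  refine ⟨max 3 ⌈a⌉₊, fun x hx T hT X hX => ?_⟩
  have h3 := ha x ((Nat.le_ceil a).trans (by exact_mod_cast (le_max_right _ _).trans hx))
  have h4 := h x ((le_max_left _ _).trans hx) T hT
  have hl : 0 < Real.log x := Real.log_pos (by exact_mod_cast (show 1 < x by omega))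
  have h5 : |A| ≤ X * (c / Real.log x ^ r) := by
    have h6 : |A| / c * Real.log x ^ r ≤ X := h3.trans hX
    have h7 : |A| = |A| / c * Real.log x ^ r * (c / Real.log x ^ r) := by field_simp
    rw [h7]
    exact mul_le_mul_of_nonneg_right h6 (by positivity)
  exact (le_abs_self A).trans (h5.trans (mul_le_mul_of_nonneg_left h4 (Nat.cast_nonneg _)))

open Classical in
/-- **typical elements** -/
theorem typ (m K r u : ℕ) (hu : 1 ≤ u) {θ ε : ℝ} (hθ : 0 < θ) (hε : 0 < ε) : ∃ c : ℝ, 0 < c ∧ ∃ B x₀ : ℕ,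
    ∀ x : ℕ, x₀ ≤ x → ∀ T : Finset ℤ, Tup r x T → ∀ y X D : ℕ, (x : ℝ) ^ θ ≤ X → X ≤ x →
    Real.log x ^ B ≤ D → D ≤ X → ∀ S : Finset ℕ, S ⊆ Ioc y (y + X) → (∀ n ∈ S, Tp u x T n) →
    ((S.filter (fun n => (((Fintype.piFinset (fun _ : Fin m => Icc 1 D)).filter (fun d => Cen K S n d)).card : ℝ) <
      c * ((D : ℝ) ^ m * gg T x ^ ((2 * K + 1) ^ m - 1)))).card : ℝ) ≤ ε * (X * gg T x) := by
  classical
  obtain ⟨c₁, hc₁, B, x₁, h1⟩ := tupM 1 m (2 * K + 1) (fun _ => r) u hu hθ hε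
  obtain ⟨c₂, hc₂, h2⟩ := sing_pow r ((2 * K + 1) ^ m)
  obtain ⟨x₂, h3⟩ := big_Xg r (θ := θ) (A := 1 / ε) hθ
  refine ⟨c₁ ^ 2 * c₂ / (4 * ε), by positivity, B, max x₁ (max x₂ 3), ?_⟩
  intro x hx T hT y X D hX hXx hBD hDX S hS hSp
  have e1 : x₁ ≤ x := (le_max_left _ _).trans hx
  have e2 : x₂ ≤ x := (le_max_left _ _).trans ((le_max_right _ _).trans hx)
  have e3 : 3 ≤ x := (le_max_right _ _).trans ((le_max_right _ _).trans hx)
  have hg := gg_pos e3 hT
  have hXg := h3 x e2 T hT X hX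
  have hl : 0 < Real.log x := Real.log_pos (by exact_mod_cast (show 1 < x by omega))
  by_contra hcon
  rw [not_le] at hcon
  obtain ⟨b, hb⟩ : ∃ b : ℕ, b = (2 * K + 1) ^ m := ⟨_, rfl⟩
  have hb1 : 1 ≤ b := by rw [hb]; exact Nat.one_le_pow _ _ (by omega)
  rw [← hb] at hcon h2
  obtain ⟨c, hc⟩ : ∃ c : ℝ, c = c₁ ^ 2 * c₂ / (4 * ε) := ⟨_, rfl⟩
  rw [← hc] at hcon
  obtain ⟨Q, hQ⟩ : ∃ Q : Finset ℕ, Q = S.filter (fun n =>
    (((Fintype.piFinset (fun _ : Fin m => Icc 1 D)).filter (fun d => Cen K S n d)).card : ℝ) <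
      c * ((D : ℝ) ^ m * gg T x ^ (b - 1))) := ⟨_, rfl⟩
  rw [← hQ] at hcon
  obtain ⟨S', hS'Q, hS'c⟩ := exists_subset_card_eq (s := Q) (n := ⌈ε * (X * gg T x)⌉₊)
    (Nat.ceil_le.2 hcon.le)
  have hS'S : S' ⊆ S := hS'Q.trans (by rw [hQ]; exact filter_subset _ _)
  have hc1 : ε * (X * gg T x) ≤ (S'.card : ℝ) := by
    rw [hS'c]
    exact Nat.le_ceil _
  have hc2 : (S'.card : ℝ) ≤ 2 * (ε * (X * gg T x)) := by
    rw [hS'c]
    have h4 := (Nat.ceil_lt_add_one (show 0 ≤ ε * (X * gg T x) by positivity)).le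
    have h5 : 1 ≤ ε * (X * gg T x) := by
      rw [div_le_iff₀ hε] at hXg
      linarith
    linarith
  obtain ⟨G, g1, g2, g3⟩ := h1 x e1 (fun _ => T) (fun _ => hT) (fun _ => y) X D hX hXx hBD hDX
    (fun _ => S') (fun _ => hS'S.trans hS) (fun _ n hn => hSp n (hS'S hn)) (fun _ => hc1)
  have hD0 : (0 : ℝ) < D := by
    have h4 : (0 : ℝ) < Real.log x ^ B := by positivity
    linarith
  have hX0 : (0 : ℝ) < X := by
    have : (D : ℝ) ≤ X := by exact_mod_cast hDX
    linarith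
  -- the lower bound for every good vector
  have low : ∀ d ∈ G, c₁ * c₂ * (X * gg T x ^ b) ≤ ((S'.filter (fun n => Cen K S n d)).card : ℝ) := by
    intro d hd
    obtain ⟨k1, k2, k3⟩ := g3 d hd (bx m K) (by
      intro f hf i
      unfold bx at hf
      rw [Fintype.mem_piFinset] at hf
      exact mem_range.1 (hf i)) (by
      unfold bx
      rw [Fintype.mem_piFinset]
      intro i
      rw [mem_range]
      omega) 0
    rw [bx_card, ← hb] at k1
    have k4 := h2 T (TF T d (bx m K)) hT.card hT.adm k1 k2 (fun q _ => by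
      have := nu_TF T d (bx m K) q
      rwa [bx_card, ← hb] at this)
    have k5 : c₂ * gg T x ^ b ≤ gg (TF T d (bx m K)) x := by
      have e4 : gg (TF T d (bx m K)) x = Sing (TF T d (bx m K)) / Real.log x ^ (TF T d (bx m K)).card := rfl
      have e5 : gg T x = Sing T / Real.log x ^ T.card := rfl
      rw [e4, e5, k1, hT.card, div_pow, ← pow_mul, mul_div_assoc']
      exact div_le_div_of_nonneg_right k4 (by positivity)
    calc c₁ * c₂ * (X * gg T x ^ b) = c₁ * (X * (c₂ * gg T x ^ b)) := by ring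
      _ ≤ c₁ * (X * gg (TF T d (bx m K)) x) := by
          apply mul_le_mul_of_nonneg_left _ hc₁.le
          exact mul_le_mul_of_nonneg_left k5 hX0.le
      _ ≤ _ := k3
      _ ≤ _ := by
          apply Nat.cast_le.2
          apply card_le_card_of_injOn (fun n => n + ∑ i, K * d i)
          · intro n hn
            have hn' := (mem_filter.1 (mem_coe.1 hn)).2
            obtain ⟨q1, q2⟩ := cen_of hS'S (K := K) (n := n) (d := d) hn'
            exact mem_coe.2 (mem_filter.2 ⟨q1, q2⟩)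
          · intro a _ b' _ hab
            exact Nat.add_right_cancel hab
  have sum1 : c₁ * (D : ℝ) ^ m * (c₁ * c₂ * (X * gg T x ^ b)) ≤
      ∑ d ∈ G, ((S'.filter (fun n => Cen K S n d)).card : ℝ) := by
    calc c₁ * (D : ℝ) ^ m * (c₁ * c₂ * (X * gg T x ^ b)) ≤ (G.card : ℝ) * (c₁ * c₂ * (X * gg T x ^ b)) :=
          mul_le_mul_of_nonneg_right g2 (by positivity)
      _ = ∑ d ∈ G, c₁ * c₂ * (X * gg T x ^ b) := by rw [sum_const, nsmul_eq_mul]
      _ ≤ _ := sum_le_sum low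
  have sum2 : ∑ d ∈ G, ((S'.filter (fun n => Cen K S n d)).card : ℝ) ≤
      ∑ n ∈ S', (((Fintype.piFinset (fun _ : Fin m => Icc 1 D)).filter (fun d => Cen K S n d)).card : ℝ) := by
    calc ∑ d ∈ G, ((S'.filter (fun n => Cen K S n d)).card : ℝ)
        ≤ ∑ d ∈ Fintype.piFinset (fun _ : Fin m => Icc 1 D), ((S'.filter (fun n => Cen K S n d)).card : ℝ) :=
          sum_le_sum_of_subset_of_nonneg g1 (fun _ _ _ => Nat.cast_nonneg _)
      _ = ∑ d ∈ Fintype.piFinset (fun _ : Fin m => Icc 1 D), ∑ n ∈ S', (if Cen K S n d then (1 : ℝ) else 0) := by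
          apply sum_congr rfl
          intro d _
          rw [card_filter]
          push_cast
          rfl
      _ = ∑ n ∈ S', ∑ d ∈ Fintype.piFinset (fun _ : Fin m => Icc 1 D), (if Cen K S n d then (1 : ℝ) else 0) :=
          sum_comm
      _ = _ := by
          apply sum_congr rfl
          intro n _
          rw [card_filter]
          push_cast
          rfl
  have sum3 : ∑ n ∈ S', (((Fintype.piFinset (fun _ : Fin m => Icc 1 D)).filter (fun d => Cen K S n d)).card : ℝ) ≤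
      (S'.card : ℝ) * (c * ((D : ℝ) ^ m * gg T x ^ (b - 1))) := by
    rw [← nsmul_eq_mul]
    apply sum_le_card_nsmul
    intro n hn
    have h4 := hS'Q hn
    rw [hQ, mem_filter] at h4
    exact h4.2.le
  have hcpos : 0 < c := by rw [hc]; positivity
  have sum4 : (S'.card : ℝ) * (c * ((D : ℝ) ^ m * gg T x ^ (b - 1))) ≤
      2 * (ε * (X * gg T x)) * (c * ((D : ℝ) ^ m * gg T x ^ (b - 1))) :=
    mul_le_mul_of_nonneg_right hc2 (by positivity)
  have e4 : gg T x * gg T x ^ (b - 1) = gg T x ^ b := by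
    rw [← pow_succ', Nat.sub_add_cancel hb1]
  have e5 : 2 * (ε * (X * gg T x)) * (c * ((D : ℝ) ^ m * gg T x ^ (b - 1))) =
      1 / 2 * (c₁ * (D : ℝ) ^ m * (c₁ * c₂ * (X * gg T x ^ b))) := by
    rw [hc, ← e4]
    field_simp
    ring
  have hfin : 0 < c₁ * (D : ℝ) ^ m * (c₁ * c₂ * (X * gg T x ^ b)) := by positivity
  linarith

end Pool.Agent.X26.TY
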