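import Pool.Agent.X26.GP.Tup

/-!
# The singular series of a sum set and a power of the singular series
-/

set_option autoImplicit false

namespace Pool.Agent.X26.TY

open Finset Filter
open Pool.Agent.Y843.HS (Pr Pr_prime)
open Pool.Agent.Y843.AC.HL (nu Adm Sing loc Sing_cmp loc_pos)
open Pool.Agent.X26.GP (TF mem_TF)

theorem one_sub_ge_exp {t : ℝ} (h0 : 0 ≤ t) (h1 : t ≤ 1 / 2) : Real.exp (-t) * Real.exp (-(2 * t) ^ 2) ≤ 1 - t := by
  rw [← Real.exp_add]
  have h2 : 0 < 1 - t := by linarith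
  rw [← Real.log_le_log_iff (Real.exp_pos _) h2, Real.log_exp]
  have h3 := Real.one_sub_inv_le_log_of_pos h2
  have h4 : 1 - (1 - t)⁻¹ = -t / (1 - t) := by
    field_simp
    ring
  rw [h4] at h3
  refine le_trans ?_ h3
  rw [le_div_iff₀ h2]
  nlinarith [mul_nonneg h0 h0, mul_nonneg (mul_nonneg h0 h0) (by linarith : 0 ≤ 1 / 2 - t), mul_nonneg (mul_nonneg h0 h0) h0]

/-- the local comparison -/
theorem local_cmp {ν ν' b p r : ℕ} (hp : p.Prime) (hν : ν ≤ r) (hb : ν' ≤ b * ν) (hνp : ν < p) (hν'p : ν' < p) :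
    (if p < 2 * (b * r) then 1 / (p : ℝ) else Real.exp (-((2 * (b * r) : ℕ) : ℝ) ^ 2 * ((p : ℝ) ^ 2)⁻¹)) *
      (1 - (ν : ℝ) / p) ^ b ≤ 1 - (ν' : ℝ) / p := by
  have hp0 : (0 : ℝ) < p := by exact_mod_cast hp.pos
  have h1 : 0 ≤ 1 - (ν : ℝ) / p := by
    have : (ν : ℝ) / p ≤ 1 := by
      rw [div_le_one hp0]
      exact_mod_cast hνp.le
    linarith
  have h2 : 1 - (ν : ℝ) / p ≤ 1 := by
    have : 0 ≤ (ν : ℝ) / p := by positivity
    linarith
  split_ifs with h
  · have h3 : (1 - (ν : ℝ) / p) ^ b ≤ 1 := pow_le_one₀ h1 h2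
    have h4 : 1 / (p : ℝ) ≤ 1 - (ν' : ℝ) / p := by
      have h5 : (ν' : ℝ) + 1 ≤ p := by exact_mod_cast hν'p
      rw [le_sub_iff_add_le, ← add_div, div_le_one hp0]
      linarith
    calc 1 / (p : ℝ) * (1 - (ν : ℝ) / p) ^ b ≤ 1 / (p : ℝ) * 1 := mul_le_mul_of_nonneg_left h3 (by positivity)
      _ ≤ _ := by rw [mul_one]; exact h4
  · rw [not_lt] at h
    obtain ⟨t, ht⟩ : ∃ t : ℝ, t = (b : ℝ) * ν / p := ⟨_, rfl⟩
    have ht0 : 0 ≤ t := by rw [ht]; positivity
    have hbr : (b : ℝ) * ν ≤ ((b * r : ℕ) : ℝ) := by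
      push_cast
      exact mul_le_mul_of_nonneg_left (by exact_mod_cast hν) (Nat.cast_nonneg _)
    have hbr2 : 2 * ((b * r : ℕ) : ℝ) ≤ p := by exact_mod_cast h
    have ht1 : t ≤ 1 / 2 := by
      rw [ht, div_le_iff₀ hp0]
      linarith
    have h3 := one_sub_ge_exp ht0 ht1
    have h4 : (1 - (ν : ℝ) / p) ^ b ≤ Real.exp (-t) := by
      have h5 : 1 - (ν : ℝ) / p ≤ Real.exp (-((ν : ℝ) / p)) := by
        have := Real.add_one_le_exp (-((ν : ℝ) / p))
        linarith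
      refine (pow_le_pow_left₀ h1 h5 b).trans (le_of_eq ?_)
      rw [← Real.exp_nat_mul]
      congr 1
      rw [ht]
      ring
    have h5 : Real.exp (-((2 * (b * r) : ℕ) : ℝ) ^ 2 * ((p : ℝ) ^ 2)⁻¹) ≤ Real.exp (-(2 * t) ^ 2) := by
      apply Real.exp_le_exp.2
      have e : 2 * t = (2 * ((b : ℝ) * ν)) / p := by rw [ht]; ring
      rw [e, div_pow, neg_mul, neg_le_neg_iff, ← div_eq_mul_inv]
      apply div_le_div_of_nonneg_right _ (by positivity)
      apply pow_le_pow_left₀ (by positivity)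
      push_cast at hbr ⊢
      linarith
    have h6 : 1 - t ≤ 1 - (ν' : ℝ) / p := by
      rw [ht]
      have : (ν' : ℝ) / p ≤ (b : ℝ) * ν / p := by
        apply div_le_div_of_nonneg_right _ hp0.le
        exact_mod_cast hb
      linarith
    calc Real.exp (-((2 * (b * r) : ℕ) : ℝ) ^ 2 * ((p : ℝ) ^ 2)⁻¹) * (1 - (ν : ℝ) / p) ^ b
        ≤ Real.exp (-(2 * t) ^ 2) * Real.exp (-t) := mul_le_mul h5 h4 (by positivity) (Real.exp_pos _).le
      _ = Real.exp (-t) * Real.exp (-(2 * t) ^ 2) := mul_comm _ _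
      _ ≤ _ := h3.trans h6

/-- the product of the local constants -/
theorem prod_low (A z : ℕ) : ∃ c : ℝ, 0 < c ∧ ∀ x : ℕ, c ≤ ∏ p ∈ Pr 0 x,
    (if p < z then 1 / (p : ℝ) else Real.exp (-(A : ℝ) ^ 2 * ((p : ℝ) ^ 2)⁻¹)) := by
  classical
  refine ⟨(∏ p ∈ Pr 0 z, (1 / (p : ℝ))) * Real.exp (-(A : ℝ) ^ 2 * 2), ?_, fun x => ?_⟩
  · apply mul_pos _ (Real.exp_pos _)
    apply prod_pos
    intro p hp
    have := (Pr_prime hp).pos
    positivity
  · rw [prod_ite]
    apply mul_le_mul _ _ (Real.exp_pos _).le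
    · apply prod_nonneg
      intro p _
      positivity
    · -- the small primes
      have hsub : (Pr 0 x).filter (fun p => p < z) ⊆ Pr 0 z := by
        intro p hp
        rw [mem_filter] at hp
        unfold Pr at hp ⊢
        rw [mem_filter, mem_Ioc] at hp ⊢
        exact ⟨⟨hp.1.1.1, hp.2.le⟩, hp.1.2⟩
      rw [← prod_sdiff hsub]
      have h1 : ∏ p ∈ Pr 0 z \ (Pr 0 x).filter (fun p => p < z), (1 / (p : ℝ)) ≤ 1 := by
        apply prod_le_one
        · intro p _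
          positivity
        · intro p hp
          have hp' := (Pr_prime (Finset.mem_sdiff.1 hp).1).pos
          have : (1 : ℝ) ≤ p := by exact_mod_cast hp'
          rw [div_le_one (by linarith)]
          exact this
      exact mul_le_of_le_one_left (prod_nonneg fun p _ => by positivity) h1
    · rw [← Real.exp_sum]
      apply Real.exp_le_exp.2
      rw [← mul_sum]
      have h2 : ∑ p ∈ (Pr 0 x).filter (fun p => ¬ p < z), ((p : ℝ) ^ 2)⁻¹ ≤ 2 := by
        have hsub : (Pr 0 x).filter (fun p => ¬ p < z) ⊆ insert 1 (Ioc 1 (x + 1)) := by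
          intro p hp
          rw [mem_filter] at hp
          unfold Pr at hp
          rw [mem_filter, mem_Ioc] at hp
          rw [mem_insert, mem_Ioc]
          have := hp.1.2.two_le
          right
          omega
        refine (sum_le_sum_of_subset_of_nonneg hsub (fun _ _ _ => by positivity)).trans ?_
        rw [sum_insert (by simp)]
        have h3 := sum_Ioc_inv_sq_le_sub (α := ℝ) (k := 1) (n := x + 1) one_ne_zero (by omega)
        have h4 : (0 : ℝ) ≤ (((x + 1 : ℕ) : ℝ))⁻¹ := by positivity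
        rw [Nat.cast_one, inv_one] at h3
        rw [Nat.cast_one, one_pow, inv_one]
        linarith
      have h3 : 0 ≤ (A : ℝ) ^ 2 := by positivity
      nlinarith

/-- **the singular series of a larger set** -/
theorem sing_pow (r b : ℕ) : ∃ c : ℝ, 0 < c ∧ ∀ T T' : Finset ℤ, T.card = r → Adm T → T'.card = r * b → Adm T' →
    (∀ q : ℕ, q.Prime → nu T' q ≤ b * nu T q) → c * Sing T ^ b ≤ Sing T' := by
  classical
  obtain ⟨c₁, hc₁, h1⟩ := prod_low (2 * (b * r)) (2 * (b * r))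
  refine ⟨1 / 2 * c₁ / (2 : ℝ) ^ (r * r ^ 2 * b), by positivity, fun T T' hr hT hr' hT' hnu => ?_⟩
  obtain ⟨x, hx1, hx2, hx3, hx4⟩ : ∃ x : ℕ, 2 * T'.card ^ 2 ≤ x ∧ 1 ≤ x ∧ 2 ≤ x ∧ ∀ t ∈ T, |t| ≤ x := by
    refine ⟨2 * T'.card ^ 2 + 2 + ∑ t ∈ T, t.natAbs, by omega, by omega, by omega, fun t ht => ?_⟩
    have h2 : t.natAbs ≤ ∑ t ∈ T, t.natAbs := single_le_sum (f := fun t : ℤ => t.natAbs) (fun _ _ => Nat.zero_le _) ht
    rw [Int.abs_eq_natAbs]
    exact_mod_cast h2.trans (by omega)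
  have h2 := (Sing_cmp hT' (x := x)).1 hx1 hx2
  have h3 := (Sing_cmp hT (x := x)).2 hx3 hx4
  have hP0 : 0 ≤ ∏ p ∈ Pr 0 x, loc T p := prod_nonneg fun p hp => (loc_pos hT (Pr_prime hp)).le
  have hS0 : 0 ≤ Sing T := by
    have := (Sing_cmp hT (x := max x (2 * T.card ^ 2))).1 (le_max_right _ _) (le_trans hx2 (le_max_left _ _))
    refine le_trans ?_ this
    have : 0 ≤ ∏ p ∈ Pr 0 (max x (2 * T.card ^ 2)), loc T p :=
      prod_nonneg fun p hp => (loc_pos hT (Pr_prime hp)).le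
    positivity
  have h4 : Sing T ^ b ≤ (2 : ℝ) ^ (r * r ^ 2 * b) * (∏ p ∈ Pr 0 x, loc T p) ^ b := by
    refine (pow_le_pow_left₀ hS0 h3 b).trans (le_of_eq ?_)
    rw [mul_pow, ← pow_mul, hr]
  have h5 : c₁ * (∏ p ∈ Pr 0 x, loc T p) ^ b ≤ ∏ p ∈ Pr 0 x, loc T' p := by
    rw [← prod_pow]
    calc c₁ * ∏ p ∈ Pr 0 x, loc T p ^ b ≤ (∏ p ∈ Pr 0 x, (if p < 2 * (b * r) then 1 / (p : ℝ) else
          Real.exp (-((2 * (b * r) : ℕ) : ℝ) ^ 2 * ((p : ℝ) ^ 2)⁻¹))) * ∏ p ∈ Pr 0 x, loc T p ^ b := by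
          apply mul_le_mul_of_nonneg_right (h1 x)
          exact prod_nonneg fun p hp => pow_nonneg (loc_pos hT (Pr_prime hp)).le _
      _ = ∏ p ∈ Pr 0 x, ((if p < 2 * (b * r) then 1 / (p : ℝ) else
          Real.exp (-((2 * (b * r) : ℕ) : ℝ) ^ 2 * ((p : ℝ) ^ 2)⁻¹)) * loc T p ^ b) := by rw [← prod_mul_distrib]
      _ ≤ _ := by
          apply Finset.prod_le_prod
          · intro p hp
            have h6 := (loc_pos hT (Pr_prime hp)).le
            apply mul_nonneg _ (pow_nonneg h6 _)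
            split_ifs <;> positivity
          · intro p hp
            have hpp := Pr_prime hp
            have hp0 : (0 : ℝ) < p := by exact_mod_cast hpp.pos
            have hnr : nu T p ≤ r := by
              unfold nu
              exact card_image_le.trans hr.le
            have h6 := local_cmp hpp hnr (hnu p hpp) (hT p hpp) (hT' p hpp)
            have h7 : (0 : ℝ) < 1 - 1 / (p : ℝ) := by
              have : 1 / (p : ℝ) < 1 := by
                rw [div_lt_one hp0]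
                exact_mod_cast hpp.one_lt
              linarith
            unfold loc
            rw [div_pow, ← pow_mul, hr, hr', mul_div_assoc']
            exact div_le_div_of_nonneg_right h6 (by positivity)
  calc 1 / 2 * c₁ / (2 : ℝ) ^ (r * r ^ 2 * b) * Sing T ^ b
      ≤ 1 / 2 * c₁ / (2 : ℝ) ^ (r * r ^ 2 * b) * ((2 : ℝ) ^ (r * r ^ 2 * b) * (∏ p ∈ Pr 0 x, loc T p) ^ b) :=
        mul_le_mul_of_nonneg_left h4 (by positivity)
    _ = 1 / 2 * (c₁ * (∏ p ∈ Pr 0 x, loc T p) ^ b) := by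
        field_simp
    _ ≤ 1 / 2 * ∏ p ∈ Pr 0 x, loc T' p := mul_le_mul_of_nonneg_left h5 (by norm_num)
    _ ≤ _ := h2

theorem nu_TF {m : ℕ} (T : Finset ℤ) (d : Fin m → ℕ) (F : Finset (Fin m → ℕ)) (q : ℕ) :
    nu (TF T d F) q ≤ F.card * nu T q := by
  classical
  unfold nu
  have h1 : (TF T d F).image (fun t : ℤ => t % q) ⊆ F.biUnion (fun f =>
      (T.image (fun t : ℤ => t % q)).image (fun a : ℤ => (a + ((∑ i, f i * d i : ℕ) : ℤ)) % q)) := by
    intro v hv
    rw [mem_image] at hv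
    obtain ⟨u, hu, rfl⟩ := hv
    obtain ⟨t, ht, f, hf, rfl⟩ := mem_TF.1 hu
    rw [mem_biUnion]
    refine ⟨f, hf, ?_⟩
    rw [mem_image]
    refine ⟨t % q, mem_image_of_mem _ ht, ?_⟩
    rw [Int.emod_add_emod]
  refine (card_le_card h1).trans ?_
  refine card_biUnion_le.trans ?_
  refine (sum_le_card_nsmul _ _ ((T.image (fun t : ℤ => t % q)).card) (fun f _ => card_image_le)).trans ?_
  rw [smul_eq_mul]

end Pool.Agent.X26.TY
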